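import Mathlib

/-!
PROJECT LU (LT2), block Z2, statement (S1): recurrence and the Jordan lemma (helper59's proof).
-/

namespace Pool.Agent.Helper35.LU

open Finset Filter Topology

/-- Recurrence modulo a cocompact subgroup. -/
theorem recur {ι A : Type} [Fintype ι] [AddCommGroup A] (γ : A →+ (ι → ℂ))
    (hc : ∃ R : ℝ, ∀ z, ∃ a, ‖z - γ a‖ ≤ R) (v : ι → ℂ) (ε : ℝ) (hε : 0 < ε) (N : ℕ) :
    ∃ n : ℕ, N ≤ n ∧ ∃ a, ‖(n : ℂ) • v - γ a‖ < ε := by
  obtain ⟨R, hR⟩ := hc
  choose a ha using fun j : ℕ => hR (((j * (N + 1) : ℕ) : ℂ) • v)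
  have hb : ∀ j, ((((j * (N + 1) : ℕ) : ℂ) • v - γ (a j)) : ι → ℂ) ∈ Metric.closedBall 0 R := by
    intro j
    rw [mem_closedBall_zero_iff]
    exact ha j
  obtain ⟨r, -, φ, hφ, hlim⟩ := tendsto_subseq_of_bounded Metric.isBounded_closedBall hb
  obtain ⟨n0, hn0⟩ := Metric.cauchySeq_iff'.1 hlim.cauchySeq ε hε
  have h1 := hn0 (n0 + 1) (Nat.le_succ n0)
  have h2 : φ n0 < φ (n0 + 1) := hφ (Nat.lt_succ_self n0)
  refine ⟨(φ (n0 + 1) - φ n0) * (N + 1), ?_, a (φ (n0 + 1)) - a (φ n0), ?_⟩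
  · have h3 : 1 ≤ φ (n0 + 1) - φ n0 := by omega
    calc N ≤ 1 * (N + 1) := by omega
      _ ≤ _ := Nat.mul_le_mul_right _ h3
  · rw [dist_eq_norm] at h1
    refine lt_of_eq_of_lt ?_ h1
    congr 1
    simp only [Function.comp_apply]
    rw [map_sub, Nat.cast_mul, Nat.cast_sub h2.le, Nat.cast_mul, Nat.cast_mul]
    module

/-- Polynomial dependence: the coefficients. -/
theorem coeff_eq (D : ℕ) (P : Polynomial ℂ) (hP : P.natDegree ≤ D) (i : ℕ) :
    P.coeff i = ∑ j ∈ range (D + 1), P.eval (j : ℂ) *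
      (Lagrange.basis (range (D + 1)) (fun j : ℕ => (j : ℂ)) j).coeff i := by
  have hinj : Set.InjOn (fun j : ℕ => (j : ℂ)) (range (D + 1) : Finset ℕ) :=
    fun x _ y _ h => Nat.cast_injective h
  have hdeg : P.degree < (range (D + 1)).card := by
    rw [card_range]
    exact lt_of_le_of_lt Polynomial.degree_le_natDegree (by exact_mod_cast Nat.lt_succ_of_le hP)
  have h1 := Lagrange.eq_interpolate hinj hdeg
  conv_lhs => rw [h1]
  rw [Lagrange.interpolate_apply, Polynomial.finsetSum_coeff]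
  refine sum_congr rfl fun j _ => ?_
  rw [Polynomial.coeff_C_mul]

/-- The Jordan lemma. -/
theorem jordan {E A : Type} [NormedAddCommGroup E] [NormedSpace ℂ E] (D : ℕ) (Φ : E → ℂ)
    (hΦ : Continuous Φ) (e d : E) (Γ : A → E) (m : A → E → ℂ) (hm : ∀ a x, m a x ≠ 0)
    (hmd : ∀ a x (y : ℂ), m a (x + y • d) = m a x) (hq : ∀ a x, Φ (x + Γ a) = m a x * Φ x)
    (hP : ∀ x, ∃ P : Polynomial ℂ, P.natDegree ≤ D ∧ ∀ y : ℂ, Φ (x + y • d) = P.eval y)
    (hrec : ∀ ε : ℝ, 0 < ε → ∀ N : ℕ, ∃ n : ℕ, N ≤ n ∧ ∃ a, ‖(n : ℂ) • e - Γ a‖ < ε)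
    (h0 : ∀ t : ℝ, Φ ((t : ℂ) • (e + d)) = 0) (s : ℝ) (y : ℂ) :
    Φ ((s : ℂ) • e + y • d) = 0 := by
  obtain ⟨G, hG⟩ : ∃ G : ℕ → E → ℂ, ∀ i x, G i x = ∑ j ∈ range (D + 1), Φ (x + (j : ℂ) • d) *
      (Lagrange.basis (range (D + 1)) (fun j : ℕ => (j : ℂ)) j).coeff i := ⟨_, fun _ _ => rfl⟩
  have hGc : ∀ i, Continuous (G i) := by
    intro i
    have h1 : G i = fun x => ∑ j ∈ range (D + 1), Φ (x + (j : ℂ) • d) *
      (Lagrange.basis (range (D + 1)) (fun j : ℕ => (j : ℂ)) j).coeff i := funext (hG i)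
    rw [h1]
    refine continuous_finsetSum _ fun j _ => ?_
    exact (hΦ.comp (continuous_id.add continuous_const)).mul continuous_const
  have hGq : ∀ i a x, G i (x + Γ a) = m a x * G i x := by
    intro i a x
    rw [hG, hG, mul_sum]
    refine sum_congr rfl fun j _ => ?_
    rw [show x + Γ a + (j : ℂ) • d = x + (j : ℂ) • d + Γ a by abel, hq, hmd, mul_assoc]
  have hGs : ∀ x (y : ℂ), Φ (x + y • d) = ∑ i ∈ range (D + 1), G i x * y ^ i := by
    intro x y
    obtain ⟨P, hPd, hPe⟩ := hP x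
    rw [hPe y, Polynomial.eval_eq_sum_range' (Nat.lt_succ_of_le hPd)]
    refine sum_congr rfl fun i _ => ?_
    rw [coeff_eq D P hPd i, hG]
    simp only [hPe]
  have key : ∀ k i : ℕ, i < D + 1 → D + 1 ≤ i + k → ∀ s : ℝ, G i ((s : ℂ) • e) = 0 := by
    intro k
    induction k with
    | zero =>
      intro i h1 h2
      omega
    | succ k ih =>
      intro i h1 h2 s
      by_cases h3 : D + 1 ≤ i + k
      · exact ih i h1 h3 s
      have hi : i + k = D := by omega
      -- the relation with the terms up to `i`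
      have hrel : ∀ t : ℝ, ∑ j ∈ range (i + 1), G j ((t : ℂ) • e) * (t : ℂ) ^ j = 0 := by
        intro t
        have h4 := h0 t
        rw [smul_add, hGs] at h4
        rw [← h4]
        refine sum_subset (range_subset_range.2 (by omega)) fun j hj hj' => ?_
        rw [mem_range] at hj hj'
        rw [ih j hj (by omega) t, zero_mul]
      choose t ht b hb using fun n : ℕ => hrec (1 / ((n : ℝ) + 1)) (by positivity) n
      have hε : Tendsto (fun n => ((t n : ℂ) • e - Γ (b n) : E)) atTop (𝓝 0) :=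
        squeeze_zero_norm (fun n => (hb n).le) tendsto_one_div_add_atTop_nhds_zero_nat
      have hx : Tendsto (fun n => (s : ℂ) • e + ((t n : ℂ) • e - Γ (b n))) atTop
          (𝓝 ((s : ℂ) • e)) := by
        have h4 := (tendsto_const_nhds (x := (s : ℂ) • e)).add hε
        rwa [add_zero] at h4
      have hu : Tendsto (fun n => s + (t n : ℝ)) atTop atTop := by
        refine tendsto_atTop_add_const_left _ _ ?_
        refine tendsto_natCast_atTop_atTop.comp ?_
        exact tendsto_atTop_mono ht tendsto_id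
      have hrel2 : ∀ n, ∑ j ∈ range (i + 1), G j ((s : ℂ) • e + ((t n : ℂ) • e - Γ (b n))) *
          ((s + (t n : ℝ) : ℝ) : ℂ) ^ j = 0 := by
        intro n
        have h4 := hrel (s + (t n : ℝ))
        have h5 : ((s + (t n : ℝ) : ℝ) : ℂ) • e =
            (s : ℂ) • e + ((t n : ℂ) • e - Γ (b n)) + Γ (b n) := by
          rw [Complex.ofReal_add, Complex.ofReal_natCast, add_smul]
          abel
        rw [h5] at h4
        simp only [hGq] at h4
        have h6 : m (b n) ((s : ℂ) • e + ((t n : ℂ) • e - Γ (b n))) *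
            ∑ j ∈ range (i + 1), G j ((s : ℂ) • e + ((t n : ℂ) • e - Γ (b n))) *
              ((s + (t n : ℝ) : ℝ) : ℂ) ^ j = 0 := by
          rw [mul_sum, ← h4]
          exact sum_congr rfl fun j _ => by ring
        exact (mul_eq_zero.1 h6).resolve_left (hm _ _)
      have hlim1 : Tendsto (fun n => G i ((s : ℂ) • e + ((t n : ℂ) • e - Γ (b n)))) atTop
          (𝓝 (G i ((s : ℂ) • e))) := ((hGc i).tendsto _).comp hx
      have hlim2 : Tendsto (fun n => -∑ j ∈ range i,
          G j ((s : ℂ) • e + ((t n : ℂ) • e - Γ (b n))) *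
            (((s + (t n : ℝ)) ^ j / (s + (t n : ℝ)) ^ i : ℝ) : ℂ)) atTop (𝓝 0) := by
        have h4 : (0 : ℂ) = -∑ j ∈ range i, G j ((s : ℂ) • e) * ((0 : ℝ) : ℂ) := by simp
        rw [h4]
        refine Tendsto.neg (tendsto_finsetSum _ fun j hj => ?_)
        refine Tendsto.mul (((hGc j).tendsto _).comp hx) ?_
        refine (Complex.continuous_ofReal.tendsto 0).comp ?_
        exact (tendsto_pow_div_pow_atTop_zero (mem_range.1 hj)).comp hu
      have hev : ∀ᶠ n in atTop, G i ((s : ℂ) • e + ((t n : ℂ) • e - Γ (b n))) =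
          -∑ j ∈ range i, G j ((s : ℂ) • e + ((t n : ℂ) • e - Γ (b n))) *
            (((s + (t n : ℝ)) ^ j / (s + (t n : ℝ)) ^ i : ℝ) : ℂ) := by
        filter_upwards [hu.eventually_gt_atTop 0] with n hn
        have h4 := hrel2 n
        rw [sum_range_succ] at h4
        have h5 : ((s + (t n : ℝ) : ℝ) : ℂ) ^ i ≠ 0 :=
          pow_ne_zero _ (Complex.ofReal_ne_zero.2 hn.ne')
        have h6 : (∑ j ∈ range i, G j ((s : ℂ) • e + ((t n : ℂ) • e - Γ (b n))) *
            (((s + (t n : ℝ)) ^ j / (s + (t n : ℝ)) ^ i : ℝ) : ℂ)) * ((s + (t n : ℝ) : ℝ) : ℂ) ^ i =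
            ∑ j ∈ range i, G j ((s : ℂ) • e + ((t n : ℂ) • e - Γ (b n))) *
              ((s + (t n : ℝ) : ℝ) : ℂ) ^ j := by
          rw [sum_mul]
          refine sum_congr rfl fun j _ => ?_
          rw [Complex.ofReal_div, Complex.ofReal_pow, Complex.ofReal_pow, mul_assoc,
            div_mul_cancel₀ _ h5]
        apply mul_right_cancel₀ h5
        rw [neg_mul, h6]
        exact eq_neg_of_add_eq_zero_right h4
      exact tendsto_nhds_unique (hlim1.congr' hev) hlim2
  rw [hGs]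
  refine sum_eq_zero fun i hi => ?_
  rw [key (D + 1) i (mem_range.1 hi) (by omega) s, zero_mul]

end Pool.Agent.Helper35.LU
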