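import Pool.Agent.Helper63.LU.Yf
import Pool.Agent.Helper63.LU.Df
import Pool.Agent.Helper35.LZ.La
import Pool.Agent.Helper35.LU.Ja

/-!
PROJECT LU (LT2), block Z2, statement (S1): the directions that stabilise a prime ideal.
-/

namespace Pool.Agent.Helper35.LU

open Finset Filter Topology MvPowerSeries
open Pool.Agent.Helper63.LU
open Pool.Agent.Helper63.LT (Ent tr tr_apply)
open Pool.Agent.Helper63.LT.LD (crit)

/-- The graph of the real linear map. -/
noncomputable def gr {ι : Type} (σ : (ι → ℂ) →ₗ[ℝ] (ι → ℂ)) : (ι → ℂ) →ₗ[ℝ] (ι ⊕ ι → ℂ) where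
  toFun v := Sum.elim v (σ v)
  map_add' v w := by
    funext i
    rcases i with i | i
    · rfl
    · show σ (v + w) i = σ v i + σ w i
      rw [map_add]
      rfl
  map_smul' a v := by
    funext i
    rcases i with i | i
    · rfl
    · show σ (a • v) i = a • σ v i
      rw [map_smul]
      rfl

theorem gr_apply {ι : Type} (σ : (ι → ℂ) →ₗ[ℝ] (ι → ℂ)) (v : ι → ℂ) :
    gr σ v = Sum.elim v (σ v) := rfl

/-- Polynomial dependence on a vertical direction. -/
theorem vert {ι A : Type} [Fintype ι] [AddCommGroup A] (γ : A →+ (ι → ℂ))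
    (l : A →+ ((ι → ℂ) →ₗ[ℂ] ℂ)) (c : A → ℂ) (σ : (ι → ℂ) →ₗ[ℝ] (ι → ℂ)) (k L : ℕ)
    (F : (ι ⊕ ι → ℂ) → ℂ) (hF : Theta2 γ l c σ k L F) (x : ι ⊕ ι → ℂ) (d : ι → ℂ) (a : ℂ) :
    ∃ P : Polynomial ℂ, P.natDegree ≤ L ∧
      ∀ y : ℂ, F (x + a • (y • Sum.elim (0 : ι → ℂ) d)) = P.eval y := by
  obtain ⟨P, hP, hPe⟩ := hF.2.2 (fun i => x (Sum.inl i))
  refine ⟨MvPolynomial.aeval (fun j => Polynomial.C (x (Sum.inr j)) +
    Polynomial.C (a * d j) * Polynomial.X) P, ?_, ?_⟩
  · refine le_trans (MvPolynomial.aeval_natDegree_le (m := L) (n := 1) P hP _ fun i => ?_)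
      (by omega)
    refine le_trans (Polynomial.natDegree_add_le _ _) ?_
    rw [Polynomial.natDegree_C]
    refine max_le (Nat.zero_le _) (le_trans (Polynomial.natDegree_C_mul_le _ _) ?_)
    exact Polynomial.natDegree_X_le
  · intro y
    have h1 : x + a • (y • Sum.elim (0 : ι → ℂ) d) =
        Sum.elim (fun i => x (Sum.inl i)) (fun j => x (Sum.inr j) + a * d j * y) := by
      funext i
      rcases i with i | i
      · simp
      · simp
        ring
    rw [h1, hPe, ← Polynomial.coe_aeval_eq_eval, MvPolynomial.comp_aeval_apply,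
      MvPolynomial.aeval_eq_eval, Polynomial.coe_aeval_eq_eval]
    simp only [Polynomial.eval_add, Polynomial.eval_mul, Polynomial.eval_C, Polynomial.eval_X]

section

variable {ι A : Type} [Fintype ι] [AddCommGroup A] (γ : A →+ (ι → ℂ))
  (l : A →+ ((ι → ℂ) →ₗ[ℂ] ℂ)) (c : A → ℂ) (σ : (ι → ℂ) →ₗ[ℝ] (ι → ℂ)) (X : Pool.Agent.Helper63.LU.LE (ι ⊕ ι))
  (hT : ∀ k L (F : Ent (ι ⊕ ι)), F ∈ X.T k L → Theta2 γ l c σ k L (F : (ι ⊕ ι → ℂ) → ℂ))
  (p : Ideal X.SS)

include hT in
/-- The periods stabilise. -/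
theorem Stab_period (a : A) : X.Stab p (gr σ (γ a)) := by
  intro k L L' F g hF hg
  have hF1 := hT k L F hF.1
  have hg1 := hT k L' g hg
  have h1 : tr (gr σ (γ a)) F * tr (-gr σ (γ a)) g =
      Complex.exp (k * l a (γ a)) • (F * g) := by
    refine Subtype.ext (funext fun z => ?_)
    show (F : (ι ⊕ ι → ℂ) → ℂ) (gr σ (γ a) + z) * (g : (ι ⊕ ι → ℂ) → ℂ) (-gr σ (γ a) + z) =
      Complex.exp (k * l a (γ a)) * ((F : (ι ⊕ ι → ℂ) → ℂ) z * (g : (ι ⊕ ι → ℂ) → ℂ) z)
    have h2 := hF1.2.1 a z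
    have h3 := hg1.2.1 a (-gr σ (γ a) + z)
    rw [← gr_apply] at h2 h3
    rw [add_comm (gr σ (γ a)) z, h2]
    have h4 : -gr σ (γ a) + z + gr σ (γ a) = z := by abel
    rw [h4] at h3
    have h5 : (fun i => (-gr σ (γ a) + z) (Sum.inl i)) = (fun i => z (Sum.inl i)) - γ a := by
      funext i
      show -γ a i + z (Sum.inl i) = z (Sum.inl i) - γ a i
      ring
    rw [h5, map_sub] at h3
    rw [h3]
    have h6 : Complex.exp (k * (l a (fun i => z (Sum.inl i)) + c a)) =
        Complex.exp (k * l a (γ a)) *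
          Complex.exp (k * (l a (fun i => z (Sum.inl i)) - l a (γ a) + c a)) := by
      rw [← Complex.exp_add]
      congr 1
      ring
    rw [h6]
    ring
  rw [h1]
  refine Submodule.smul_mem _ _ ?_
  have h2 := X.PP_mul p hF hg
  rwa [← two_mul] at h2

include hT in
/-- Jordan lemma for the stabiliser. -/
theorem Stab_jordan (hc : ∃ R : ℝ, ∀ z, ∃ a, ‖z - γ a‖ ≤ R) (x : ι ⊕ ι → ℂ) (hx : x ∈ X.hh p)
    (s : ℝ) (y : ℂ) :
    X.Stab p ((s : ℂ) • gr σ (fun i => x (Sum.inl i)) + y • Sum.elim (0 : ι → ℂ)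
      (fun i => x (Sum.inr i) - σ (fun j => x (Sum.inl j)) i)) := by
  intro k L L' F g hF hg
  refine crit (X.PP p (2 * k) (L + L')) _ fun f hf => ?_
  obtain ⟨κ, hκ, z, a, ha, hH, hfun⟩ := X.fun_eq k L L'
  have hFT : F ∈ X.T k L := hF.1
  have hF1 := hT k L F hFT
  have hg1 := hT k L' g hg
  rw [hfun f F g hFT hg]
  obtain ⟨d, hd⟩ : ∃ d : ι → ℂ, d = fun i => x (Sum.inr i) - σ (fun j => x (Sum.inl j)) i :=
    ⟨_, rfl⟩
  rw [← hd]
  refine jordan (L + L') (fun w => ∑ i, (F : (ι ⊕ ι → ℂ) → ℂ) (z i + w) *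
    (g : (ι ⊕ ι → ℂ) → ℂ) (z i - w) * f (a i)) ?_ (gr σ (fun i => x (Sum.inl i)))
    (Sum.elim (0 : ι → ℂ) d) (fun b => gr σ (γ b))
    (fun b w => Complex.exp (k * (2 * l b (fun i => w (Sum.inl i)) + l b (γ b))))
    (fun b w => Complex.exp_ne_zero _) ?_ ?_ ?_ ?_ ?_ s y
  · refine continuous_finsetSum _ fun i _ => ?_
    refine Continuous.mul (Continuous.mul ?_ ?_) continuous_const
    · exact F.2.continuous.comp (continuous_const.add continuous_id)
    · exact g.2.continuous.comp (continuous_const.sub continuous_id)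
  · intro b w y
    have h1 : (fun i => (w + y • Sum.elim (0 : ι → ℂ) d) (Sum.inl i)) =
        fun i => w (Sum.inl i) := by
      funext i
      simp
    rw [h1]
  · intro b w
    rw [mul_sum]
    refine sum_congr rfl fun i _ => ?_
    have h2 := hF1.2.1 b (z i + w)
    have h3 := hg1.2.1 b (z i - (w + gr σ (γ b)))
    rw [← gr_apply] at h2 h3
    have h4 : z i - (w + gr σ (γ b)) + gr σ (γ b) = z i - w := by abel
    rw [h4] at h3
    have h5 : (fun j => (z i - (w + gr σ (γ b))) (Sum.inl j)) =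
        (fun j => z i (Sum.inl j)) - (fun j => w (Sum.inl j)) - γ b := by
      funext j
      show z i (Sum.inl j) - (w (Sum.inl j) + γ b j) = _
      simp only [Pi.sub_apply]
      ring
    have h6 : (fun j => (z i + w) (Sum.inl j)) =
        (fun j => z i (Sum.inl j)) + (fun j => w (Sum.inl j)) := rfl
    rw [h5, map_sub, map_sub] at h3
    rw [h6, map_add] at h2
    rw [← add_assoc, h2, h3]
    have h7 : Complex.exp (k * (l b (fun j => z i (Sum.inl j)) + l b (fun j => w (Sum.inl j)) +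
        c b)) = Complex.exp (k * (2 * l b (fun i => w (Sum.inl i)) + l b (γ b))) *
        Complex.exp (k * (l b (fun j => z i (Sum.inl j)) - l b (fun j => w (Sum.inl j)) -
          l b (γ b) + c b)) := by
      rw [← Complex.exp_add]
      congr 1
      ring
    rw [h7]
    ring
  · intro w
    have h1 : ∀ i : κ, ∃ P : Polynomial ℂ, P.natDegree ≤ L + L' ∧ ∀ y : ℂ,
        (F : (ι ⊕ ι → ℂ) → ℂ) (z i + (w + y • Sum.elim (0 : ι → ℂ) d)) *
          (g : (ι ⊕ ι → ℂ) → ℂ) (z i - (w + y • Sum.elim (0 : ι → ℂ) d)) * f (a i) = P.eval y := by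
      intro i
      obtain ⟨P, hP, hPe⟩ := vert γ l c σ k L _ hF1 (z i + w) d 1
      obtain ⟨Q, hQ, hQe⟩ := vert γ l c σ k L' _ hg1 (z i - w) d (-1)
      refine ⟨P * Q * Polynomial.C (f (a i)), ?_, fun y => ?_⟩
      · refine le_trans (Polynomial.natDegree_mul_C_le _ _) ?_
        exact le_trans Polynomial.natDegree_mul_le (Nat.add_le_add hP hQ)
      · rw [Polynomial.eval_mul, Polynomial.eval_mul, Polynomial.eval_C, ← hPe, ← hQe]
        congr 3
        · rw [one_smul, add_assoc]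
        · rw [neg_smul, one_smul, sub_add_eq_sub_sub, sub_eq_add_neg (z i - w)]
    choose P hP hPe using h1
    refine ⟨∑ i, P i, Polynomial.natDegree_sum_le_of_forall_le _ _ fun i _ => hP i, fun y => ?_⟩
    rw [Polynomial.eval_finsetSum]
    exact sum_congr rfl fun i _ => hPe i y
  · intro ε hε N
    have hσc : Continuous σ := LinearMap.continuous_of_finiteDimensional σ
    have h1 : Tendsto σ (𝓝 0) (𝓝 0) := by
      have h2 := hσc.tendsto 0
      rwa [map_zero] at h2
    obtain ⟨δ, hδ, hδ2⟩ := Metric.tendsto_nhds_nhds.1 h1 ε hε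
    obtain ⟨n, hn, b, hb⟩ := recur γ hc (fun i => x (Sum.inl i)) (min δ ε) (lt_min hδ hε) N
    refine ⟨n, hn, b, ?_⟩
    have h3 : (n : ℂ) • gr σ (fun i => x (Sum.inl i)) - gr σ (γ b) =
        gr σ ((n : ℂ) • (fun i => x (Sum.inl i)) - γ b) := by
      rw [map_sub]
      congr 1
      have h4 : ((n : ℂ) • (fun i => x (Sum.inl i)) : ι → ℂ) = (n : ℝ) • (fun i => x (Sum.inl i)) := by
        funext i
        simp
      rw [h4, map_smul]
      funext i
      simp
    rw [h3]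
    rw [pi_norm_lt_iff hε]
    intro i
    rcases i with i | i
    · exact lt_of_le_of_lt (norm_le_pi_norm ((n : ℂ) • (fun i => x (Sum.inl i)) - γ b) i)
        (lt_of_lt_of_le hb (min_le_right _ _))
    · have h4 := hδ2 (x := (n : ℂ) • (fun i => x (Sum.inl i)) - γ b)
        (by rw [dist_zero_right]; exact lt_of_lt_of_le hb (min_le_left _ _))
      rw [dist_zero_right] at h4
      exact lt_of_le_of_lt (norm_le_pi_norm (σ ((n : ℂ) • (fun i => x (Sum.inl i)) - γ b)) i) h4
  · intro t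
    have h1 : gr σ (fun i => x (Sum.inl i)) + Sum.elim (0 : ι → ℂ) d = x := by
      funext i
      rcases i with i | i
      · show x (Sum.inl i) + 0 = x (Sum.inl i)
        rw [add_zero]
      · show σ (fun i => x (Sum.inl i)) i + d i = x (Sum.inr i)
        rw [hd]
        ring
    rw [h1]
    have h2 := X.Stab_of_hh p ((t : ℂ) • x) (Submodule.smul_mem _ _ hx) k L L' F g hF hg
    have h3 := hf _ h2
    rwa [hfun f F g hFT hg] at h3

include hT in
/-- (S1). -/
theorem S1 (hc : ∃ R : ℝ, ∀ z, ∃ a, ‖z - γ a‖ ≤ R)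
    (hb : ∀ z : ι ⊕ ι → ℂ, ∃ F ∈ X.T 1 0, (F : (ι ⊕ ι → ℂ) → ℂ) z ≠ 0) (hp : p.IsPrime)
    (hp0 : ∀ x ∈ p, constantCoeff (x : MvPowerSeries (ι ⊕ ι) ℂ) = 0) (x : ι ⊕ ι → ℂ)
    (hx : x ∈ X.hh p) :
    Sum.elim (0 : ι → ℂ) (fun i => x (Sum.inr i) - σ (fun j => x (Sum.inl j)) i) ∈ X.hh p ∧
      (fun i => x (Sum.inl i)) ∈ Submodule.span ℝ
        {y : ι → ℂ | ∃ a, y = γ a ∧ Sum.elim (γ a) (σ (γ a)) ∈ X.hh p} := by
  have hJ := Stab_jordan γ l c σ X hT p hc x hx
  have he : gr σ (fun i => x (Sum.inl i)) ∈ X.hh p := by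
    refine X.hh_of_rays p _ fun t ht => ?_
    have h1 := hJ t 0
    rw [zero_smul, add_zero] at h1
    exact h1
  refine ⟨?_, ?_⟩
  · refine X.hh_of_rays p _ fun t ht => ?_
    have h1 := hJ 0 t
    rw [Complex.ofReal_zero, zero_smul, zero_add] at h1
    exact h1
  · have hgc : Continuous (gr σ) := LinearMap.continuous_of_finiteDimensional (gr σ)
    obtain ⟨R, hR⟩ := hc
    have h1 := Pool.Agent.Helper35.LZ.lattice_monoid (E := ι → ℂ)
      { carrier := {v | X.Stab p (gr σ v)}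
        add_mem' := by
          intro v w hv hw
          show X.Stab p (gr σ (v + w))
          rw [map_add]
          exact X.Stab_add p hp hp0 hb _ _ hv hw
        zero_mem' := by
          show X.Stab p (gr σ 0)
          rw [map_zero]
          exact X.Stab_zero p }
      ((X.Stab_closed p).preimage hgc)
      (((X.hh p).restrictScalars ℝ).comap (gr σ))
      (fun v hv => X.Stab_of_hh p _ hv)
      (fun v hv => X.hh_of_rays p _ fun t ht => by
        have h2 := hv t ht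
        change X.Stab p (gr σ (t • v)) at h2
        rwa [map_smul] at h2)
      (Set.range γ)
      (by
        rintro _ ⟨a, rfl⟩
        exact Stab_period γ l c σ X hT p a)
      (by
        rintro _ ⟨a, rfl⟩ _ ⟨b, rfl⟩
        exact ⟨a - b, map_sub γ a b⟩)
      ⟨R, fun z => by
        obtain ⟨a, ha⟩ := hR z
        exact ⟨γ a, ⟨a, rfl⟩, ha⟩⟩
      (fun i => x (Sum.inl i)) he
    refine Submodule.span_mono ?_ h1
    rintro _ ⟨⟨a, rfl⟩, h2⟩
    exact ⟨a, rfl, h2⟩

end

end Pool.Agent.Helper35.LU
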